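import Pool.Agent.Helper27.REC.StmtsT3
import Pool.Agent.Helper60.REC.TRP
import Pool.Agent.Helper85.MU.ISO

/-!
# GNS: generic Frobenius elements for motives of rank two
-/

set_option autoImplicit false

open scoped Classical
open NumberField Polynomial

namespace REC

namespace GNSp

open MU

/-- uniqueness of the expansion to the base `2 D + 1` with digits between `-D` and `D` -/
theorem digits (D : ℕ) : ∀ (t : ℕ) (e : Fin t → ℤ), (∀ i, |e i| ≤ D) →
    ∑ i, e i * (2 * (D : ℤ) + 1) ^ (i : ℕ) = 0 → ∀ i, e i = 0 := by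
  intro t
  induction t with
  | zero => intro e _ _ i; exact i.elim0
  | succ t ih =>
    intro e he hs
    rw [Fin.sum_univ_succ] at hs
    have h1 : ∑ i : Fin t, e i.succ * (2 * (D : ℤ) + 1) ^ ((i.succ : Fin (t + 1)) : ℕ) =
        (2 * (D : ℤ) + 1) * ∑ i : Fin t, e i.succ * (2 * (D : ℤ) + 1) ^ (i : ℕ) := by
      rw [Finset.mul_sum]
      refine Finset.sum_congr rfl fun i _ => ?_
      rw [Fin.val_succ, pow_succ]
      ring
    rw [h1] at hs
    simp only [Fin.val_zero, pow_zero, mul_one] at hs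
    have h0 : e 0 = 0 := by
      have hd : (2 * (D : ℤ) + 1) ∣ e 0 := by
        refine ⟨-∑ i : Fin t, e i.succ * (2 * (D : ℤ) + 1) ^ (i : ℕ), ?_⟩
        linarith
      refine Int.eq_zero_of_abs_lt_dvd hd ?_
      have := he 0
      have h3 : (0 : ℤ) ≤ D := Int.natCast_nonneg D
      linarith
    have h2 : ∑ i : Fin t, e i.succ * (2 * (D : ℤ) + 1) ^ (i : ℕ) = 0 := by
      rw [h0, zero_add] at hs
      rcases mul_eq_zero.mp hs with h | h
      · have h3 : (0 : ℤ) ≤ D := Int.natCast_nonneg D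
        linarith
      · exact h
    intro i
    refine Fin.cases h0 (fun i => ?_) i
    exact ih (fun i => e i.succ) (fun i => he _) h2 i

/-- generic elements -/
theorem gen (D t l : ℕ) [Fact l.Prime]
    (hl : 2 * (D + 1) * (∑ i : Fin t, (2 * D + 1) ^ (i : ℕ)) + 2 < l) :
    ∃ a : Fin t → (ZMod l)ˣ, (∀ i, a i ^ 2 ≠ 1) ∧ ∀ e : Fin t → ℤ, (∀ i, |e i| ≤ D) →
      ∏ i, a i ^ (2 * e i) = 1 → ∀ i, e i = 0 := by
  obtain ⟨ζ, hζ⟩ := IsCyclic.exists_generator (α := (ZMod l)ˣ)
  have hord : orderOf ζ = l - 1 := by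
    rw [orderOf_eq_card_of_forall_mem_zpowers hζ, Nat.card_eq_fintype_card, ZMod.card_units]
  have hb : ∀ i : Fin t, (2 * D + 1) ^ (i : ℕ) ≤ ∑ i : Fin t, (2 * D + 1) ^ (i : ℕ) :=
    fun i => Finset.single_le_sum (f := fun i : Fin t => (2 * D + 1) ^ (i : ℕ))
      (fun _ _ => Nat.zero_le _) (Finset.mem_univ i)
  refine ⟨fun i => ζ ^ ((2 * D + 1) ^ (i : ℕ)), fun i h => ?_, fun e he h => ?_⟩
  · rw [← pow_mul] at h
    have h1 := orderOf_dvd_of_pow_eq_one h
    rw [hord] at h1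
    have h2 : 0 < (2 * D + 1) ^ (i : ℕ) * 2 := by positivity
    have h3 := Nat.le_of_dvd h2 h1
    have h4 := hb i
    have h5 : 2 * (∑ i : Fin t, (2 * D + 1) ^ (i : ℕ)) ≤
        2 * (D + 1) * (∑ i : Fin t, (2 * D + 1) ^ (i : ℕ)) := by
      refine Nat.mul_le_mul_right _ ?_
      omega
    omega
  · have h1 : ζ ^ (2 * ∑ i, e i * (2 * (D : ℤ) + 1) ^ (i : ℕ)) = 1 := by
      rw [← h, Finset.mul_sum]
      have : ∀ s : Finset (Fin t), ζ ^ (∑ i ∈ s, 2 * (e i * (2 * (D : ℤ) + 1) ^ (i : ℕ))) =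
          ∏ i ∈ s, (ζ ^ ((2 * D + 1) ^ (i : ℕ))) ^ (2 * e i) := by
        intro s
        induction s using Finset.induction_on with
        | empty => simp
        | insert a s ha ih =>
          rw [Finset.sum_insert ha, Finset.prod_insert ha, zpow_add, ih]
          congr 1
          rw [← zpow_natCast, ← zpow_mul]
          congr 1
          push_cast
          ring
      exact this _
    have h2 : ((l - 1 : ℕ) : ℤ) ∣ 2 * ∑ i, e i * (2 * (D : ℤ) + 1) ^ (i : ℕ) := by
      rw [← hord]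
      exact orderOf_dvd_iff_zpow_eq_one.mpr h1
    have h3 : |2 * ∑ i, e i * (2 * (D : ℤ) + 1) ^ (i : ℕ)| < ((l - 1 : ℕ) : ℤ) := by
      have h4 : |∑ i, e i * (2 * (D : ℤ) + 1) ^ (i : ℕ)| ≤
          (D : ℤ) * ((∑ i : Fin t, (2 * D + 1) ^ (i : ℕ) : ℕ) : ℤ) := by
        refine le_trans (Finset.abs_sum_le_sum_abs _ _) ?_
        push_cast
        rw [Finset.mul_sum]
        refine Finset.sum_le_sum fun i _ => ?_
        rw [abs_mul]
        have h5 : |(2 * (D : ℤ) + 1) ^ (i : ℕ)| = (2 * (D : ℤ) + 1) ^ (i : ℕ) :=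
          abs_of_nonneg (by positivity)
        rw [h5]
        exact mul_le_mul_of_nonneg_right (he i) (by positivity)
      rw [abs_mul, abs_of_pos (by norm_num : (0 : ℤ) < 2)]
      have h6 : ((l - 1 : ℕ) : ℤ) = (l : ℤ) - 1 := by
        have : 1 ≤ l := by omega
        push_cast [Nat.cast_sub this]
        ring
      rw [h6]
      have h7 : 2 * ((D : ℤ) + 1) * ((∑ i : Fin t, (2 * D + 1) ^ (i : ℕ) : ℕ) : ℤ) + 2 < l := by
        exact_mod_cast hl
      have h8 : (0 : ℤ) ≤ ((∑ i : Fin t, (2 * D + 1) ^ (i : ℕ) : ℕ) : ℤ) := Int.natCast_nonneg _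
      nlinarith
    have h4 := Int.eq_zero_of_abs_lt_dvd h2 h3
    refine digits D t e he ?_
    linarith

/-- Hensel's lemma -/
theorem hens (l : ℕ) [Fact l.Prime] (A : Matrix (Fin 2) (Fin 2) ℤ_[l]) (a : (ZMod l)ˣ)
    (ha : a ^ 2 ≠ 1) (hA : A.map (PadicInt.toZMod (p := l)) =
      Matrix.diagonal ![(a : ZMod l), ((a⁻¹ : (ZMod l)ˣ) : ZMod l)]) :
    ∃ u v : ℤ_[l]ˣ, A.charpoly = (Polynomial.X - C (u : ℤ_[l])) *
        (Polynomial.X - C (v : ℤ_[l])) ∧
      Units.map (PadicInt.toZMod (p := l)).toMonoidHom u = a ∧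
      Units.map (PadicInt.toZMod (p := l)).toMonoidHom v = a⁻¹ := by
  have hlt : ∀ x : ℤ_[l], PadicInt.toZMod (p := l) x = 0 ↔ ‖x‖ < 1 := by
    intro x
    rw [← RingHom.mem_ker, PadicInt.ker_toZMod, IsLocalRing.mem_maximalIdeal, PadicInt.mem_nonunits]
  obtain ⟨a0, ha0⟩ := ZMod.ringHom_surjective (PadicInt.toZMod (p := l)) (a : ZMod l)
  have htr : PadicInt.toZMod (p := l) A.trace = a + ((a⁻¹ : (ZMod l)ˣ) : ZMod l) := by
    have h1 := congrArg Matrix.trace hA
    rw [Matrix.trace_fin_two, Matrix.trace_fin_two] at h1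
    simp only [Matrix.map_apply, Matrix.diagonal_apply_eq] at h1
    rw [Matrix.trace_fin_two, map_add, h1]
    rfl
  have hdet : PadicInt.toZMod (p := l) A.det = 1 := by
    have h1 := congrArg Matrix.det hA
    have h2 : (A.map (PadicInt.toZMod (p := l))).det = PadicInt.toZMod (p := l) A.det :=
      (RingHom.map_det (PadicInt.toZMod (p := l)) A).symm
    rw [h2] at h1
    rw [h1, Matrix.det_diagonal, Fin.prod_univ_two]
    show (a : ZMod l) * ((a⁻¹ : (ZMod l)ˣ) : ZMod l) = 1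
    rw [← Units.val_mul, mul_inv_cancel, Units.val_one]
  have hcp : A.charpoly = Polynomial.X ^ 2 - C A.trace * Polynomial.X + C A.det :=
    Matrix.charpoly_fin_two A
  have hev : ∀ x : ℤ_[l], A.charpoly.aeval x = x ^ 2 - A.trace * x + A.det := by
    intro x
    rw [Polynomial.coe_aeval_eq_eval, hcp]
    rw [eval_add, eval_sub, eval_pow, eval_mul, eval_X, eval_C, eval_C]
  have hev' : ∀ x : ℤ_[l], A.charpoly.derivative.aeval x = 2 * x - A.trace := by
    intro x
    rw [Polynomial.coe_aeval_eq_eval, hcp]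
    rw [derivative_add, derivative_sub, derivative_X_sq, derivative_C_mul_X, derivative_C,
      eval_add, eval_sub, eval_mul, eval_C, eval_C, eval_X, eval_zero, add_zero]
  have haa : (a : ZMod l) * ((a⁻¹ : (ZMod l)ˣ) : ZMod l) = 1 := by
    rw [← Units.val_mul, mul_inv_cancel, Units.val_one]
  have hne : (a : ZMod l) - ((a⁻¹ : (ZMod l)ˣ) : ZMod l) ≠ 0 := by
    intro h
    apply ha
    have h1 : (a : ZMod l) = ((a⁻¹ : (ZMod l)ˣ) : ZMod l) := sub_eq_zero.mp h
    have h2 : a = a⁻¹ := Units.ext h1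
    rw [sq]
    nth_rewrite 2 [h2]
    exact mul_inv_cancel a
  have hF : ‖A.charpoly.aeval a0‖ < 1 := by
    rw [← hlt, hev, map_add, map_sub, map_pow, map_mul, ha0, htr, hdet]
    linear_combination (-1 : ZMod l) * haa
  have hF' : ‖A.charpoly.derivative.aeval a0‖ = 1 := by
    have h1 : ¬ ‖A.charpoly.derivative.aeval a0‖ < 1 := by
      rw [← hlt, hev']
      intro h2
      apply hne
      rw [← h2, map_sub, map_mul, ha0, htr, map_ofNat]
      ring
    exact le_antisymm (PadicInt.norm_le_one _) (not_lt.mp h1)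
  obtain ⟨z, hz0, hz1, -, -⟩ := hensels_lemma (F := A.charpoly) (a := a0) (by
    rw [hF', one_pow]; exact hF)
  rw [hF'] at hz1
  have hza : PadicInt.toZMod (p := l) z = a := by
    have := (hlt (z - a0)).mpr hz1
    rw [map_sub, ha0] at this
    exact sub_eq_zero.mp this
  have hza' : PadicInt.toZMod (p := l) (A.trace - z) = ((a⁻¹ : (ZMod l)ˣ) : ZMod l) := by
    rw [map_sub, htr, hza]; ring
  have hun : ∀ x : ℤ_[l], PadicInt.toZMod (p := l) x ≠ 0 → IsUnit x := by
    intro x hx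
    by_contra h
    exact hx ((hlt x).mpr (PadicInt.mem_nonunits.mp h))
  obtain ⟨u, hu⟩ := hun z (by rw [hza]; exact a.ne_zero)
  obtain ⟨v, hv⟩ := hun (A.trace - z) (by rw [hza']; exact (a⁻¹).ne_zero)
  refine ⟨u, v, ?_, ?_, ?_⟩
  · rw [hu, hv, hcp]
    rw [hev] at hz0
    have hd : A.det = z * (A.trace - z) := by linear_combination hz0
    rw [hd, C_mul, C_sub]
    ring
  · ext
    rw [Units.coe_map, hu]
    exact hza
  · ext
    rw [Units.coe_map, hv]
    exact hza'

/-- the residual representation is locally constant -/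
theorem open_res {F : Type} [Field F] [NumberField F] {n l : ℕ} [Fact l.Prime]
    (r : Gal F →* Matrix.GeneralLinearGroup (Fin n) ℤ_[l]) (hr : Continuous r) :
    IsOpen {σ : Gal F | res r σ = 1} := by
  have hcont : Continuous (PadicInt.toZMod (p := l)) := by
    refine continuous_of_continuousAt_zero (PadicInt.toZMod (p := l)) ?_
    have h1 : ∀ᶠ y in nhds (0 : ℤ_[l]), (0 : ZMod l) = PadicInt.toZMod y := by
      filter_upwards [Metric.ball_mem_nhds (0 : ℤ_[l]) one_pos] with y hy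
      have h2 : y ∈ RingHom.ker (PadicInt.toZMod (p := l)) := by
        rw [PadicInt.ker_toZMod, IsLocalRing.mem_maximalIdeal, PadicInt.mem_nonunits]
        simpa using hy
      exact ((RingHom.mem_ker).mp h2).symm
    exact (continuousAt_const (y := (0 : ZMod l))).congr h1
  have h1 : {σ : Gal F | res r σ = 1} = ⋂ i : Fin n, ⋂ j : Fin n,
      {σ : Gal F | PadicInt.toZMod (p := l) ((r σ : Matrix (Fin n) (Fin n) ℤ_[l]) i j) =
        (1 : Matrix (Fin n) (Fin n) (ZMod l)) i j} := by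
    ext σ
    simp only [Set.mem_ofPred_eq, Set.mem_iInter]
    rw [res_apply]
    constructor
    · intro h i j
      rw [← h]; rfl
    · intro h
      ext i j
      exact h i j
  rw [h1]
  refine isOpen_iInter_of_finite fun i => isOpen_iInter_of_finite fun j => ?_
  have h3 : Continuous fun σ : Gal F => (r σ : Matrix (Fin n) (Fin n) ℤ_[l]) :=
    Units.continuous_val.comp hr
  have h2 : Continuous fun σ : Gal F =>
      PadicInt.toZMod (p := l) ((r σ : Matrix (Fin n) (Fin n) ℤ_[l]) i j) :=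
    hcont.comp ((continuous_apply_apply i j).comp h3)
  exact (isOpen_discrete {(1 : Matrix (Fin n) (Fin n) (ZMod l)) i j}).preimage h2

end GNSp

open MU GNSp in
theorem GNS (hJNT : ST_JNT) (hFRB : ST_FRB) : ST_GNS := by
  intro F _ _ S hS t w h M hSL hUn D
  obtain ⟨c, hc⟩ := hJNT F t (fun _ => S) w h M (fun _ => hS) hSL hUn ⊤ isOpen_univ
  obtain ⟨l, hlb, hlp⟩ := Nat.exists_infinite_primes
    (c + 1 + (2 * (D + 1) * (∑ i : Fin t, (2 * D + 1) ^ (i : ℕ)) + 2))
  have : Fact l.Prime := ⟨hlp⟩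
  obtain ⟨a, ha1, ha2⟩ := gen D t l (by omega)
  obtain ⟨x, -, hx⟩ := hc l (by omega) (fun i => Matrix.diagonal
    ![(a i : ZMod l), (((a i)⁻¹ : (ZMod l)ˣ) : ZMod l)]) (fun i => by
      rw [Matrix.det_diagonal, Fin.prod_univ_two]
      show (a i : ZMod l) * (((a i)⁻¹ : (ZMod l)ˣ) : ZMod l) = 1
      rw [← Units.val_mul, mul_inv_cancel, Units.val_one])
  obtain ⟨Y, hYn, hYo, hYV⟩ := Pool.Agent.Helper60.REC8.exists_openNormal F
    (⋂ i : Fin t, {σ : Gal F | res ((M i).ρ l) σ = 1})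
    (isOpen_iInter_of_finite fun i => open_res _ ((M i).continuous l))
    (Set.mem_iInter.mpr fun i => map_one _)
  obtain ⟨p, 𝔓, k, σ, hp, hpS, hover, hk, hcong, hσ⟩ :=
    hFRB F Y hYn hYo (insert l S) (x : Gal F)⁻¹
  rw [inv_inv] at hσ
  simp only [Finset.mem_insert, not_or] at hpS
  have hres : ∀ i, res ((M i).ρ l) σ⁻¹ = Matrix.diagonal
      ![(a i : ZMod l), (((a i)⁻¹ : (ZMod l)ˣ) : ZMod l)] := by
    intro i
    have h1 : res ((M i).ρ l) ((x : Gal F) * σ) = 1 := Set.mem_iInter.mp (hYV hσ) i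
    rw [← hx i]
    have h2 : (x : Gal F) = ((x : Gal F) * σ) * σ⁻¹ := by group
    conv_rhs => rw [h2, map_mul, h1, one_mul]
  refine ⟨p, 𝔓, k, σ, hp, hpS.2, hover, hk, hcong, l, inferInstance, ℚ_[l], inferInstance,
    inferInstance, algebraMap ℤ_[l] ℚ_[l], (algebraMap ℚ ℚ_[l]).comp (algebraMap (𝓞 ℚ) ℚ),
    fun i => rat ((M i).ρ l), ?_⟩
  have hH := fun i => hens l ((M i).ρ l σ⁻¹ : Matrix (Fin 2) (Fin 2) ℤ_[l]) (a i) (ha1 i)
    (by rw [← hres i, res_apply])
  choose u v hcp hu hv using hH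
  refine ⟨fun i x => algebraMap ℤ_[l] ℚ_[l] ((![u i, v i] x : ℤ_[l]ˣ) : ℤ_[l]), Ne.symm hpS.1, ?_, ?_⟩
  · intro i
    refine ⟨⟨?_, ?_⟩, ?_⟩
    · simp [idb]
    · intro g
      simp only [idb]
      rw [Matrix.map_one _ (map_zero _) (map_one _), Matrix.one_mul, Matrix.mul_one]
      rfl
    · rw [rat_apply, Matrix.charpoly_map, hcp i, Fin.prod_univ_two]
      simp
  · intro e he hs hprod i x
    refine ⟨fun _ => ?_, fun hz => absurd rfl hz⟩
    have hs' : ∀ i, e i 1 = - e i 0 := by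
      intro i
      have := hs i
      rw [Fin.sum_univ_two] at this
      linarith
    have h1 : ∏ i, (a i) ^ (2 * e i 0) = 1 := by
      have h2 : (∏ i, ((u i) ^ (e i 0) * (v i) ^ (e i 1)) : ℤ_[l]ˣ) = 1 := by
        have hinj : Function.Injective (Units.map (algebraMap ℤ_[l] ℚ_[l]).toMonoidHom) := by
          intro y y' hyy
          ext
          have h4 : algebraMap ℤ_[l] ℚ_[l] (y : ℤ_[l]) = algebraMap ℤ_[l] ℚ_[l] (y' : ℤ_[l]) :=
            congrArg Units.val hyy
          exact IsFractionRing.injective ℤ_[l] ℚ_[l] h4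
        apply hinj
        rw [map_prod, map_one]
        ext
        rw [Units.coe_prod, Units.val_one, ← hprod]
        refine Finset.prod_congr rfl fun i _ => ?_
        rw [Fin.prod_univ_two, map_mul, Units.val_mul, map_zpow, map_zpow, Units.val_zpow_eq_zpow_val,
          Units.val_zpow_eq_zpow_val]
        rfl
      have h3 := congrArg (Units.map (PadicInt.toZMod (p := l)).toMonoidHom) h2
      rw [map_prod, map_one] at h3
      rw [← h3]
      refine Finset.prod_congr rfl fun i _ => ?_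
      rw [map_mul, map_zpow, map_zpow, hu, hv, hs', inv_zpow, zpow_neg, inv_inv, two_mul, zpow_add]
    have h0 : ∀ i, e i 0 = 0 := ha2 (fun i => e i 0) (fun i => he i 0) h1
    fin_cases x
    · exact h0 i
    · have := hs' i
      rw [h0 i] at this
      simpa using this

end REC
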