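import Pool.Agent.Helper27.REC.StmtsT

/-!
# INS: equivariant maps and stable subspaces modulo large primes
-/

set_option autoImplicit false

open scoped Classical
open NumberField Polynomial

namespace REC

namespace INSp

/-- integral matrices generating the Lie algebra of the matrices of trace `0` which preserve the
form `J` -/
noncomputable def Bs {n : ℕ} (J : Matrix (Fin n) (Fin n) ℤ) (x y : Fin n) (b : Bool) :
    Matrix (Fin n) (Fin n) ℤ :=
  if J = 0 then
    (if b = true then (if x = y then 0 else Matrix.single x y 1)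
      else Matrix.single x x 1 - Matrix.single y y 1)
  else Matrix.single x y 1 - J.transpose * Matrix.single y x 1 * J

/-- the hypothesis on `J` -/
def Jk {n : ℕ} (J : Matrix (Fin n) (Fin n) ℤ) : Prop :=
  J = 0 ∨ (J * J.transpose = 1 ∧ (J.transpose = J ∨ J.transpose = -J))

theorem Bs_trace {n : ℕ} {J : Matrix (Fin n) (Fin n) ℤ} (hJ : Jk J) (x y : Fin n) (b : Bool) :
    (Bs J x y b).trace = 0 := by
  unfold Bs
  split_ifs with h0 hb hxy
  · simp
  · exact Matrix.trace_single_eq_of_ne _ _ _ hxy
  · simp
  · rcases hJ with h | ⟨h1, -⟩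
    · exact absurd h h0
    · have h2 : (J.transpose * Matrix.single y x 1 * J).trace = (Matrix.single y x (1:ℤ)).trace := by
        rw [Matrix.mul_assoc, Matrix.trace_mul_comm, Matrix.mul_assoc, h1, Matrix.mul_one]
      rw [Matrix.trace_sub, h2]
      by_cases hxy : x = y
      · subst hxy; simp
      · rw [Matrix.trace_single_eq_of_ne _ _ _ hxy, Matrix.trace_single_eq_of_ne _ _ _ (Ne.symm hxy)]
        simp

theorem Bs_form {n : ℕ} {J : Matrix (Fin n) (Fin n) ℤ} (hJ : Jk J) (x y : Fin n) (b : Bool) :
    (Bs J x y b).transpose * J + J * Bs J x y b = 0 := by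
  by_cases h0 : J = 0
  · subst h0; simp
  · rcases hJ with h | ⟨h1, h2⟩
    · exact absurd h h0
    · unfold Bs
      rw [if_neg h0]
      rw [Matrix.transpose_sub, Matrix.transpose_mul, Matrix.transpose_mul,
        Matrix.transpose_transpose, Matrix.transpose_single, Matrix.transpose_single,
        Matrix.sub_mul, Matrix.mul_sub]
      have e1 : J * (J.transpose * Matrix.single y x 1 * J) = Matrix.single y x 1 * J := by
        rw [← Matrix.mul_assoc, ← Matrix.mul_assoc, h1, Matrix.one_mul]
      have e2 : J.transpose * (Matrix.single x y 1 * J) * J = J * Matrix.single x y 1 := by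
        rcases h2 with h2 | h2
        · rw [h2] at h1 ⊢
          rw [Matrix.mul_assoc, Matrix.mul_assoc, h1, Matrix.mul_one]
        · rw [h2] at h1 ⊢
          have h3 : J * J = -1 := by
            rw [← h1]; simp
          rw [Matrix.mul_assoc, Matrix.mul_assoc, h3]
          simp
      rw [e1, e2]
      abel

theorem Bs_transpose {n : ℕ} {J : Matrix (Fin n) (Fin n) ℤ} (x y : Fin n)
    (b : Bool) : ∃ x' y' b', (Bs J x y b).transpose = Bs J x' y' b' := by
  by_cases h0 : J = 0
  · by_cases hb : b = true
    · refine ⟨y, x, b, ?_⟩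
      unfold Bs
      rw [if_pos h0, if_pos h0, if_pos hb, if_pos hb]
      by_cases hxy : x = y
      · rw [if_pos hxy, if_pos hxy.symm]; simp
      · rw [if_neg hxy, if_neg (Ne.symm hxy)]; simp
    · refine ⟨x, y, b, ?_⟩
      unfold Bs
      rw [if_pos h0, if_neg hb]
      simp
  · refine ⟨y, x, b, ?_⟩
    unfold Bs
    rw [if_neg h0, if_neg h0]
    rw [Matrix.transpose_sub, Matrix.transpose_mul, Matrix.transpose_mul,
        Matrix.transpose_transpose, Matrix.transpose_single, Matrix.transpose_single,
        Matrix.mul_assoc]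

theorem Bs_span {n : ℕ} (hn : 0 < n) {J : Matrix (Fin n) (Fin n) ℤ} (hJ : Jk J)
    (K : Type) [Field K] (h2 : (2 : K) ≠ 0) (X : Matrix (Fin n) (Fin n) K) (htr : X.trace = 0)
    (hf : X.transpose * J.map (Int.castRingHom K) + J.map (Int.castRingHom K) * X = 0) :
    X ∈ Submodule.span K (Set.range fun k : Fin n × Fin n × Bool =>
      (Bs J k.1 k.2.1 k.2.2).map (Int.castRingHom K)) := by
  set S := Submodule.span K (Set.range fun k : Fin n × Fin n × Bool =>
      (Bs J k.1 k.2.1 k.2.2).map (Int.castRingHom K)) with hS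
  have hmem : ∀ x y b, (Bs J x y b).map (Int.castRingHom K) ∈ S :=
    fun x y b => Submodule.subset_span ⟨(x, y, b), rfl⟩
  have hsum : X = ∑ x, ∑ y, X x y • Matrix.single x y (1 : K) := by
    conv_lhs => rw [Matrix.matrix_eq_sum_single X]
    refine Finset.sum_congr rfl fun x _ => Finset.sum_congr rfl fun y _ => ?_
    rw [Matrix.smul_single]; simp
  by_cases h0 : J = 0
  · have h1 : ∀ x y, x ≠ y → Matrix.single x y (1 : K) ∈ S := by
      intro x y hxy
      have h := hmem x y true
      have e : (Bs J x y true).map (Int.castRingHom K) = Matrix.single x y (1 : K) := by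
        unfold Bs
        rw [if_pos h0, if_pos rfl, if_neg hxy]
        ext a b
        simp [Matrix.single_apply]
      rwa [e] at h
    have h3 : ∀ x y, Matrix.single x x (1 : K) - Matrix.single y y 1 ∈ S := by
      intro x y
      have h := hmem x y false
      have e : (Bs J x y false).map (Int.castRingHom K) =
          Matrix.single x x (1 : K) - Matrix.single y y 1 := by
        unfold Bs
        rw [if_pos h0, if_neg (by simp)]
        ext a b
        simp [Matrix.single_apply]
      rwa [e] at h
    let x0 : Fin n := ⟨0, hn⟩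
    have hX : X = ∑ x, ∑ y, X x y • (Matrix.single x y (1 : K) -
        (if x = y then Matrix.single x0 x0 (1 : K) else 0)) := by
      have e : ∑ x, ∑ y, X x y • (if x = y then Matrix.single x0 x0 (1 : K) else 0) = 0 := by
        have e1 : ∀ x, ∑ y, X x y • (if x = y then Matrix.single x0 x0 (1 : K) else 0) =
            X x x • Matrix.single x0 x0 (1 : K) := by
          intro x
          rw [Finset.sum_eq_single x]
          · simp
          · intro y _ hy; rw [if_neg (Ne.symm hy), smul_zero]
          · simp
        rw [Finset.sum_congr rfl fun x _ => e1 x, ← Finset.sum_smul]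
        have : ∑ x, X x x = X.trace := rfl
        rw [this, htr, zero_smul]
      simp only [smul_sub, Finset.sum_sub_distrib]
      rw [e, sub_zero]
      exact hsum
    rw [hX]
    refine Submodule.sum_mem _ fun x _ => Submodule.sum_mem _ fun y _ => Submodule.smul_mem _ _ ?_
    by_cases hxy : x = y
    · subst hxy
      rw [if_pos rfl]
      exact h3 _ _
    · rw [if_neg hxy, sub_zero]
      exact h1 _ _ hxy
  · rcases hJ with h | ⟨hJ1, -⟩
    · exact absurd h h0
    · set JK := J.map (Int.castRingHom K) with hJK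
      have hJ2 : JK * JK.transpose = 1 := by
        have := congrArg (fun M => M.map (Int.castRingHom K)) hJ1
        simp only [Matrix.map_mul] at this
        rw [hJK, ← Matrix.transpose_map, this]
        exact Matrix.map_one _ (map_zero _) (map_one _)
      have hJ3 : JK.transpose * JK = 1 := mul_eq_one_comm.mp hJ2
      have hXe : X = -(JK.transpose * X.transpose * JK) := by
        have e1 : JK.transpose * (X.transpose * JK + JK * X) = 0 := by rw [hf, Matrix.mul_zero]
        rw [Matrix.mul_add, ← Matrix.mul_assoc, ← Matrix.mul_assoc, hJ3, Matrix.one_mul] at e1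
        exact eq_neg_of_add_eq_zero_right e1
      have e2 : ∑ x, ∑ y, X x y • (Bs J x y true).map (Int.castRingHom K) =
          X - JK.transpose * X.transpose * JK := by
        have e3 : ∀ x y, (Bs J x y true).map (Int.castRingHom K) =
            Matrix.single x y (1 : K) - JK.transpose * Matrix.single y x 1 * JK := by
          intro x y
          unfold Bs
          rw [if_neg h0, Matrix.map_sub _ (map_sub _), Matrix.map_mul, Matrix.map_mul, hJK,
            Matrix.transpose_map]
          have e4 : ∀ a b : Fin n, (Matrix.single a b (1 : ℤ)).map (Int.castRingHom K) =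
              Matrix.single a b (1 : K) := by
            intro a b; ext i j; simp [Matrix.single_apply]
          rw [e4, e4]
        have e5 : X.transpose = ∑ x, ∑ y, X x y • Matrix.single y x (1 : K) := by
          conv_lhs => rw [hsum]
          rw [Matrix.transpose_sum]
          refine Finset.sum_congr rfl fun x _ => ?_
          rw [Matrix.transpose_sum]
          refine Finset.sum_congr rfl fun y _ => ?_
          rw [Matrix.transpose_smul, Matrix.transpose_single]
        have e6 : JK.transpose * X.transpose * JK =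
            ∑ x, ∑ y, X x y • (JK.transpose * Matrix.single y x 1 * JK) := by
          rw [e5, Finset.mul_sum, Finset.sum_mul]
          refine Finset.sum_congr rfl fun x _ => ?_
          rw [Finset.mul_sum, Finset.sum_mul]
          refine Finset.sum_congr rfl fun y _ => ?_
          rw [Matrix.mul_smul, Matrix.smul_mul]
        rw [e6]
        simp only [e3, smul_sub, Finset.sum_sub_distrib]
        rw [← hsum]
      have e7 : X = (2 : K)⁻¹ • ∑ x, ∑ y, X x y • (Bs J x y true).map (Int.castRingHom K) := by
        rw [e2, sub_eq_add_neg, ← hXe, ← two_smul K X, smul_smul, inv_mul_cancel₀ h2, one_smul]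
      rw [e7]
      exact Submodule.smul_mem _ _ (Submodule.sum_mem _ fun x _ => Submodule.sum_mem _ fun y _ =>
        Submodule.smul_mem _ _ (hmem _ _ _))

variable {t : ℕ} {m : Fin t → ℕ}

/-- the indices of the generating set -/
abbrev Kap {t : ℕ} (m : Fin t → ℕ) : Type := Σ i : Fin t, (Fin (m i) × Fin (m i) × Bool)

/-- the generating families -/
noncomputable def BB (J : MM m ℤ) (k : Kap m) : MM m ℤ :=
  Pi.single k.1 (Bs (J k.1) k.2.1 k.2.2.1 k.2.2.2)

theorem BB_transpose (J : MM m ℤ) (k : Kap m) :
    ∃ k' : Kap m, (fun i => (BB J k i).transpose) = BB J k' := by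
  obtain ⟨i, x, y, b⟩ := k
  obtain ⟨x', y', b', h⟩ := Bs_transpose (J := J i) x y b
  refine ⟨⟨i, x', y', b'⟩, ?_⟩
  funext i'
  unfold BB
  by_cases hi : i' = i
  · subst hi
    simp only [Pi.single_eq_same]
    exact h
  · simp only [Pi.single_eq_of_ne hi]
    simp

theorem BB_InS (J : MM m ℤ) (hJ : Jok J) (K : Type) [CommRing K] (k : Kap m) :
    InS (jm K J) (fun i => (BB J k i).map (Int.castRingHom K)) := by
  obtain ⟨i, x, y, b⟩ := k
  intro i'
  unfold BB jm
  by_cases hi : i' = i
  · subst hi
    simp only [Pi.single_eq_same]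
    refine ⟨?_, ?_⟩
    · have h := Bs_trace (J := J i') (hJ i').2 x y b
      have := congrArg (Int.castRingHom K) h
      rw [map_zero, AddMonoidHom.map_trace (Int.castRingHom K)] at this
      exact this
    · have h := Bs_form (J := J i') (hJ i').2 x y b
      have := congrArg (fun M => M.map (Int.castRingHom K)) h
      simp only [Matrix.map_add _ (map_add (Int.castRingHom K)), Matrix.map_mul,
        Matrix.transpose_map, Matrix.map_zero _ (map_zero (Int.castRingHom K))] at this
      exact this
  · simp only [Pi.single_eq_of_ne hi]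
    simp

theorem BB_span (J : MM m ℤ) (hJ : Jok J) (K : Type) [Field K] (h2 : (2 : K) ≠ 0) (X : MM m K)
    (hX : InS (jm K J) X) : X ∈ Submodule.span K (Set.range fun k : Kap m =>
      (fun i => (BB J k i).map (Int.castRingHom K) : MM m K)) := by
  set S := Submodule.span K (Set.range fun k : Kap m =>
      (fun i => (BB J k i).map (Int.castRingHom K) : MM m K)) with hS
  have h1 : X = ∑ i, Pi.single i (X i) := by
    exact (Finset.univ_sum_single X).symm
  rw [h1]
  refine Submodule.sum_mem _ fun i _ => ?_
  have h3 := Bs_span (hJ i).1 (hJ i).2 K h2 (X i) (hX i).1 (hX i).2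
  have h4 : Submodule.span K (Set.range fun k : Fin (m i) × Fin (m i) × Bool =>
      (Bs (J i) k.1 k.2.1 k.2.2).map (Int.castRingHom K)) ≤
      S.comap (LinearMap.single K (fun i => Matrix (Fin (m i)) (Fin (m i)) K) i) := by
    rw [Submodule.span_le]
    rintro _ ⟨k, rfl⟩
    refine Submodule.subset_span ⟨⟨i, k⟩, ?_⟩
    funext i'
    unfold BB
    by_cases hi : i' = i
    · subst hi
      simp
    · simp [Pi.single_eq_of_ne hi]
  exact h4 h3

end INSp

open INSp in
theorem INS (hTMB : ST_TMB) (hTRN : ST_TRN) (hIKR : ST_IKR) : ST_INS := by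
  intro t m J hJ c₁ c₁' c₂ c₂'
  -- integral matrices
  let D₂ : Kap m → Matrix (Tix m c₂ c₂') (Tix m c₂ c₂') ℤ := fun k => dtm c₂ c₂' (BB J k)
  let D₁ : Kap m → Matrix (Tix m c₁ c₁') (Tix m c₁ c₁') ℤ := fun k => dtm c₁ c₁' (BB J k)
  -- linearity
  have hadd : ∀ (K : Type) [Field K] (c c' : Fin t → ℕ) (X Y : MM m K),
      dtm c c' (X + Y) = dtm c c' X + dtm c c' Y := by
    intro K _ c c' X Y
    obtain ⟨-, -, -, -, -, -, h, -⟩ := hTMB K t m c c'
    exact h X Y
  have hsmul : ∀ (K : Type) [Field K] (c c' : Fin t → ℕ) (r : K) (X : MM m K),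
      dtm c c' (r • X) = r • dtm c c' X := by
    intro K _ c c' r X
    obtain ⟨-, -, -, -, -, -, -, h, -⟩ := hTMB K t m c c'
    exact h r X
  have hmap : ∀ (K : Type) [Field K] (c c' : Fin t → ℕ) (X : MM m ℤ),
      (dtm c c' X).map (Int.castRingHom K) =
        dtm c c' (fun i => (X i).map (Int.castRingHom K)) := by
    intro K _ c c' X
    obtain ⟨-, -, h, -⟩ := hTMB ℤ t m c c'
    exact (h K (Int.castRingHom K) X X).2
  have htr : ∀ (c c' : Fin t → ℕ) (X : MM m ℤ),
      (dtm c c' X).transpose = dtm c c' (fun i => (X i).transpose) := by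
    intro c c' X
    obtain ⟨-, -, -, h, -⟩ := hTMB ℤ t m c c'
    exact (h X X).2
  have hzero : ∀ (K : Type) [Field K] (c c' : Fin t → ℕ), dtm c c' (0 : MM m K) = 0 := by
    intro K _ c c'
    have := hsmul K c c' 0 (0 : MM m K)
    rwa [zero_smul, zero_smul] at this
  -- the general equivariance criterion
  have hEq : ∀ (K : Type) [Field K] (_ : (2 : K) ≠ 0) (a a' b b' : Fin t → ℕ)
      (v : Matrix (Tix m b b') (Tix m a a') K),
      (∀ k, dtm b b' (fun i => (BB J k i).map (Int.castRingHom K)) * v =
        v * dtm a a' (fun i => (BB J k i).map (Int.castRingHom K))) → Eqv (jm K J) v := by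
    intro K _ h2 a a' b b' v hv X hX
    refine Submodule.span_induction (p := fun X _ => dtm b b' X * v = v * dtm a a' X)
      ?_ ?_ ?_ ?_ (BB_span J hJ K h2 X hX)
    · rintro _ ⟨k, rfl⟩
      exact hv k
    · rw [hzero, hzero, Matrix.zero_mul, Matrix.mul_zero]
    · intro x y _ _ hx hy
      rw [hadd, hadd, Matrix.add_mul, Matrix.mul_add, hx, hy]
    · intro r x _ hx
      rw [hsmul, hsmul, Matrix.smul_mul, Matrix.mul_smul, hx]
  -- the linear system
  let A : Matrix (Kap m × (Tix m c₂ c₂' × Tix m c₁ c₁')) (Tix m c₂ c₂' × Tix m c₁ c₁') ℤ :=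
    Matrix.of fun a b => D₂ a.1 a.2.1 b.1 * (if b.2 = a.2.2 then 1 else 0) -
      (if a.2.1 = b.1 then 1 else 0) * D₁ a.1 b.2 a.2.2
  have hA : ∀ (K : Type) [CommRing K] (v : Matrix (Tix m c₂ c₂') (Tix m c₁ c₁') K) (k : Kap m)
      (p : Tix m c₂ c₂') (p' : Tix m c₁ c₁'),
      (A.map (Int.castRingHom K)).mulVec (fun q => v q.1 q.2) (k, (p, p')) =
        ((D₂ k).map (Int.castRingHom K) * v - v * (D₁ k).map (Int.castRingHom K)) p p' := by
    intro K _ v k p p'
    have e1 : ((D₂ k).map (Int.castRingHom K) * v) p p' =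
        ∑ q : Tix m c₂ c₂' × Tix m c₁ c₁', Int.castRingHom K (D₂ k p q.1) *
          (if q.2 = p' then 1 else 0) * v q.1 q.2 := by
      rw [Fintype.sum_prod_type, Matrix.mul_apply]
      refine Finset.sum_congr rfl fun x _ => ?_
      rw [Finset.sum_eq_single p']
      · simp
      · intro y _ hy; simp [hy]
      · simp
    have e2 : (v * (D₁ k).map (Int.castRingHom K)) p p' =
        ∑ q : Tix m c₂ c₂' × Tix m c₁ c₁', (if p = q.1 then 1 else 0) *
          Int.castRingHom K (D₁ k q.2 p') * v q.1 q.2 := by
      rw [Fintype.sum_prod_type_right, Matrix.mul_apply]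
      refine Finset.sum_congr rfl fun x _ => ?_
      rw [Finset.sum_eq_single p]
      · simp [mul_comm]
      · intro y _ hy; simp [Ne.symm hy]
      · simp
    rw [Matrix.sub_apply, e1, e2, ← Finset.sum_sub_distrib]
    unfold Matrix.mulVec dotProduct
    refine Finset.sum_congr rfl fun q _ => ?_
    simp only [A, Matrix.map_apply, Matrix.of_apply, map_sub, map_mul]
    rw [apply_ite (Int.castRingHom K), apply_ite (Int.castRingHom K), map_one, map_zero]
    ring
  obtain ⟨cA, r, u, hu1, hu2⟩ := hIKR _ _ A
  obtain ⟨cT, hcT⟩ : ∃ c : ℕ, ∀ (l : ℕ) (K : Type) [Field K], l.Prime → c < l → (l : K) = 0 →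
      ∀ W : Submodule K (Tix m c₂ c₂' → K),
        (∀ k, ∀ x ∈ W, ((D₂ k).map (Int.castRingHom K)).mulVec x ∈ W) →
        ∃ e : Matrix (Tix m c₂ c₂') (Tix m c₂ c₂') K, (∀ k, e * (D₂ k).map (Int.castRingHom K) =
          (D₂ k).map (Int.castRingHom K) * e) ∧ (∀ x, e.mulVec x ∈ W) ∧
          ∀ x ∈ W, e.mulVec x = x := by
    let eq := Fintype.equivFin (Kap m)
    obtain ⟨c, hc⟩ := hTRN (Tix m c₂ c₂') (Fintype.card (Kap m)) (fun i => D₂ (eq.symm i)) (by
      intro i
      obtain ⟨k', hk'⟩ := BB_transpose J (eq.symm i)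
      refine Submodule.subset_span ⟨eq k', ?_⟩
      simp only [D₂, Equiv.symm_apply_apply]
      rw [htr, hk'])
    refine ⟨c, fun l K _ hl hcl hlK W hW => ?_⟩
    obtain ⟨e, he1, he2, he3⟩ := hc l K hl hcl hlK W (fun i => hW _)
    refine ⟨e, fun k => ?_, he2, he3⟩
    have := he1 (eq k)
    simpa using this
  refine ⟨max 2 (max cA cT), r, fun j => Matrix.of fun p q => u j (p, q), ?_, ?_⟩
  · intro K _ _ j
    refine hEq K two_ne_zero _ _ _ _ _ fun k => ?_
    rw [← hmap, ← hmap]
    have h0 : ∀ p p', (D₂ k * (Matrix.of fun p q => u j (p, q)) -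
        (Matrix.of fun p q => u j (p, q)) * D₁ k) p p' = 0 := by
      intro p p'
      have h1 := hA ℤ (Matrix.of fun p q => u j (p, q)) k p p'
      have h2 : ∀ (ι κ : Type) (M : Matrix ι κ ℤ), M.map (Int.castRingHom ℤ) = M := by
        intro ι κ M; ext a b; simp
      rw [h2, h2, h2] at h1
      rw [← h1]
      exact congrFun (hu1 j) (k, (p, p'))
    have h1 : D₂ k * (Matrix.of fun p q => u j (p, q)) =
        (Matrix.of fun p q => u j (p, q)) * D₁ k := by
      ext p p'
      have := h0 p p'
      rw [Matrix.sub_apply] at this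
      exact sub_eq_zero.mp this
    have h2 := congrArg (fun M => M.map (Int.castRingHom K)) h1
    simp only [Matrix.map_mul] at h2
    exact h2
  · intro l K _ hl hcl hlK
    have hc2 : 2 < l := lt_of_le_of_lt (le_max_left _ _) hcl
    have hcA : cA < l := lt_of_le_of_lt (le_trans (le_max_left _ _) (le_max_right _ _)) hcl
    have hcT' : cT < l := lt_of_le_of_lt (le_trans (le_max_right _ _) (le_max_right _ _)) hcl
    have h2 : (2 : K) ≠ 0 := by
      intro h2
      have hodd : Odd l := hl.odd_of_ne_two (by omega)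
      obtain ⟨n, hn⟩ := hodd
      rw [hn] at hlK
      push_cast at hlK
      rw [h2, zero_mul, zero_add] at hlK
      exact one_ne_zero hlK
    refine ⟨?_, ?_⟩
    · intro v hv
      have h3 := hu2 l K hl hcA hlK (fun q => v q.1 q.2) (by
        funext a
        obtain ⟨k, p, p'⟩ := a
        rw [hA K v k p p']
        have := hv _ (BB_InS J hJ K k)
        rw [← hmap, ← hmap] at this
        change ((dtm c₂ c₂' (BB J k)).map (Int.castRingHom K) * v - v *
          (dtm c₁ c₁' (BB J k)).map (Int.castRingHom K)) p p' = 0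
        rw [sub_eq_zero.mpr this]
        rfl)
      let L : ((Tix m c₂ c₂' × Tix m c₁ c₁') → K) →ₗ[K] Matrix (Tix m c₂ c₂') (Tix m c₁ c₁') K :=
        { toFun := fun f => Matrix.of fun p q => f (p, q)
          map_add' := fun f g => rfl
          map_smul' := fun a f => rfl }
      have h4 : Submodule.span K (Set.range fun j => fun x => ((u j x : ℤ) : K)) ≤
          (Submodule.span K (Set.range fun j => (Matrix.of fun p q => u j (p, q)).map
            (Int.castRingHom K))).comap L := by
        rw [Submodule.span_le]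
        rintro _ ⟨j, rfl⟩
        exact Submodule.subset_span ⟨j, rfl⟩
      exact h4 h3
    · intro W hW
      obtain ⟨e, he1, he2, he3⟩ := hcT l K hl hcT' hlK W (by
        intro k x hx
        have := hW _ (BB_InS J hJ K k) x hx
        rwa [← hmap] at this)
      refine ⟨e, ?_, he2, he3⟩
      refine hEq K h2 _ _ _ _ _ fun k => ?_
      rw [← hmap]
      exact (he1 k).symm

end REC
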